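import Pool.Agent.N699.AO.Stm

/-! Leaf LIFT of project AO: nonsingular local solutions lift. -/

set_option autoImplicit false

namespace Pool.Agent.N339.AO

open Finset Pool.Agent.N699.AO

/-- reduction modulo `p` -/
noncomputable def red (p e : ℕ) : ZMod (p ^ (e + 1)) →+* ZMod p :=
  ZMod.castHom (dvd_pow_self p (Nat.succ_ne_zero e)) (ZMod p)

lemma card_fib (p e : ℕ) (hp : p.Prime) [NeZero p] [NeZero (p ^ (e + 1))] (x : ZMod p) :
    (univ.filter (fun y : ZMod (p ^ (e + 1)) => red p e y = x)).card = p ^ e := by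
  have hs : Function.Surjective (red p e) :=
    ZMod.castHom_surjective (dvd_pow_self p (Nat.succ_ne_zero e))
  have h1 : ∀ x' : ZMod p, (univ.filter (fun y : ZMod (p ^ (e + 1)) => red p e y = x')).card =
      (univ.filter (fun y : ZMod (p ^ (e + 1)) => red p e y = x)).card := fun x' =>
    AddMonoidHom.card_fiber_eq_of_mem_range (red p e).toAddMonoidHom (hs x') (hs x)
  have h2 : (univ : Finset (ZMod (p ^ (e + 1)))).card =
      ∑ x' : ZMod p, (univ.filter (fun y : ZMod (p ^ (e + 1)) => red p e y = x')).card :=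
    Finset.card_eq_sum_card_fiberwise (fun _ _ => mem_univ _)
  rw [Finset.sum_congr rfl (fun x' _ => h1 x')] at h2
  rw [Finset.sum_const, Finset.card_univ, Finset.card_univ, ZMod.card, ZMod.card, smul_eq_mul]
    at h2
  have h3 : p ^ (e + 1) = p * p ^ e := by rw [pow_succ, mul_comm]
  exact (Nat.eq_of_mul_eq_mul_left hp.pos (h3.symm.trans h2)).symm

lemma isUnit_of_red (p e : ℕ) (hp : p.Prime) [NeZero (p ^ (e + 1))]
    (u : ZMod (p ^ (e + 1))) (hu : red p e u ≠ 0) : IsUnit u := by
  have h1 : ((u.val : ℕ) : ZMod (p ^ (e + 1))) = u := ZMod.natCast_zmod_val u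
  rw [← h1, ZMod.isUnit_iff_coprime]
  rw [← h1, map_natCast] at hu
  apply Nat.Coprime.pow_right
  rw [Nat.coprime_comm, hp.coprime_iff_not_dvd]
  intro hd
  exact hu ((ZMod.natCast_eq_zero_iff _ _).2 hd)

lemma exists_lift (p e : ℕ) (hp : p.Prime) [NeZero p] [NeZero (p ^ (e + 1))] (t0 : ZMod p)
    (h0 : 2 * t0 + 1 ≠ 0) (w : ZMod (p ^ (e + 1))) (hw : red p e w = t0 ^ 2 + t0) :
    ∃ t : ZMod (p ^ (e + 1)), red p e t = t0 ∧ t ^ 2 + t = w := by
  classical
  have key := Finset.surjOn_of_injOn_of_card_le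
    (s := univ.filter (fun y : ZMod (p ^ (e + 1)) => red p e y = t0))
    (t := univ.filter (fun y : ZMod (p ^ (e + 1)) => red p e y = t0 ^ 2 + t0))
    (fun t => t ^ 2 + t) ?_ ?_ ?_
  · have hw' : w ∈ univ.filter (fun y : ZMod (p ^ (e + 1)) => red p e y = t0 ^ 2 + t0) := by
      simp [hw]
    obtain ⟨t, ht, h⟩ := key (by exact_mod_cast hw')
    refine ⟨t, ?_, h⟩
    have : t ∈ univ.filter (fun y : ZMod (p ^ (e + 1)) => red p e y = t0) := by exact_mod_cast ht
    simpa using this
  · intro t ht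
    have ht' : red p e t = t0 := by simpa using ht
    simp [ht']
  · intro t ht t' ht' h
    have h1 : red p e t = t0 := by simpa using ht
    have h2 : red p e t' = t0 := by simpa using ht'
    have h3 : (t + t' + 1) * (t - t') = 0 := by
      have : t ^ 2 + t = t' ^ 2 + t' := h
      linear_combination this
    have h4 : IsUnit (t + t' + 1) := by
      apply isUnit_of_red p e hp
      rw [map_add, map_add, map_one, h1, h2]
      intro h5
      apply h0
      rw [← h5]; ring
    exact sub_eq_zero.1 ((h4.mul_right_eq_zero).1 h3)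
  · rw [card_fib p e hp, card_fib p e hp]

theorem t_LIFT : Pool.Agent.N699.AO.LIFT := by
  classical
  intro p hp hp0 e k hpe ν
  set R := ZMod (p ^ (e + 1)) with hR
  set S : Finset (ZMod p × ZMod p × ZMod p) :=
    univ.filter (fun q : ZMod p × ZMod p × ZMod p =>
    20 * (2 ^ k * q.1) ^ 2 + 2 * (2 ^ k * q.1) + q.2.1 ^ 2 + q.2.2 ^ 2 + q.2.2 = (ν : ZMod p) ∧
      2 * q.2.2 + 1 ≠ 0) with hS
  set L : Finset (R × R × R) :=
    univ.filter (fun q : R × R × R =>
    20 * (2 ^ k * q.1) ^ 2 + 2 * (2 ^ k * q.1) + q.2.1 ^ 2 + q.2.2 ^ 2 + q.2.2 = (ν : R)) with hL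
  have e1 : rhoS p k (ν : ZMod p) = S.card := rfl
  have e2 : rho (p ^ (e + 1)) k (ν : ZMod (p ^ (e + 1))) = L.card := rfl
  rw [e1, e2]
  let Φ : R × R × R → ZMod p × ZMod p × ZMod p :=
    fun q => (red p e q.1, red p e q.2.1, red p e q.2.2)
  have h1 : (L.filter (fun q => Φ q ∈ S)).card =
      ∑ y ∈ S, ((L.filter (fun q => Φ q ∈ S)).filter (fun q => Φ q = y)).card :=
    Finset.card_eq_sum_card_fiberwise (fun q hq => by
      have : q ∈ L.filter (fun q => Φ q ∈ S) := by exact_mod_cast hq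
      exact_mod_cast (Finset.mem_filter.1 this).2)
  have h2 : ∀ y ∈ S, p ^ (2 * e) ≤
      ((L.filter (fun q => Φ q ∈ S)).filter (fun q => Φ q = y)).card := by
    intro y hy
    obtain ⟨a0, s0, t0⟩ := y
    have hy' := (Finset.mem_filter.1 hy).2
    simp only at hy'
    obtain ⟨hy1, hy2⟩ := hy'
    have hc : ((univ.filter (fun a : R => red p e a = a0)) ×ˢ
        (univ.filter (fun s : R => red p e s = s0))).card = p ^ (2 * e) := by
      rw [Finset.card_product]
      have c1 := card_fib p e hp a0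
      have c2 := card_fib p e hp s0
      rw [show (univ.filter (fun a : R => red p e a = a0)).card = p ^ e from c1,
        show (univ.filter (fun s : R => red p e s = s0)).card = p ^ e from c2]
      ring
    rw [← hc]
    have hex : ∀ q : R × R, red p e q.1 = a0 → red p e q.2 = s0 →
        ∃ t : R, red p e t = t0 ∧
          t ^ 2 + t = (ν : R) - 20 * (2 ^ k * q.1) ^ 2 - 2 * (2 ^ k * q.1) - q.2 ^ 2 := by
      intro q hq1 hq2
      apply exists_lift p e hp t0 hy2
      rw [map_sub, map_sub, map_sub, map_intCast, map_mul, map_pow, map_mul, map_pow, hq1,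
        map_mul, map_mul, map_pow, map_pow, hq1, hq2, ← hy1]
      simp only [map_ofNat]
      ring
    choose! T hT using hex
    refine Finset.card_le_card_of_injOn (fun q => (q.1, q.2, T q)) ?_ ?_
    · intro q hq
      have hq' : q ∈ ((univ.filter (fun a : R => red p e a = a0)) ×ˢ
        (univ.filter (fun s : R => red p e s = s0))) := by exact_mod_cast hq
      rw [Finset.mem_product, Finset.mem_filter, Finset.mem_filter] at hq'
      obtain ⟨⟨-, hq1⟩, -, hq2⟩ := hq'
      obtain ⟨hT1, hT2⟩ := hT q hq1 hq2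
      have hΦ : Φ (q.1, q.2, T q) = (a0, s0, t0) := by simp [Φ, hq1, hq2, hT1]
      have hLm : (q.1, q.2, T q) ∈ L := by
        rw [hL, Finset.mem_filter]
        refine ⟨Finset.mem_univ _, ?_⟩
        simp only
        linear_combination hT2
      have : (q.1, q.2, T q) ∈ (L.filter (fun q => Φ q ∈ S)).filter (fun q => Φ q = (a0, s0, t0)) := by
        rw [Finset.mem_filter, Finset.mem_filter]
        exact ⟨⟨hLm, by rw [hΦ]; exact hy⟩, hΦ⟩
      exact_mod_cast this
    · intro q _ q' _ h
      simp only [Prod.mk.injEq] at h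
      exact Prod.ext h.1 h.2.1
  calc p ^ (2 * e) * S.card = ∑ y ∈ S, p ^ (2 * e) := by
        rw [Finset.sum_const, smul_eq_mul, mul_comm]
    _ ≤ ∑ y ∈ S, ((L.filter (fun q => Φ q ∈ S)).filter (fun q => Φ q = y)).card :=
        Finset.sum_le_sum h2
    _ = (L.filter (fun q => Φ q ∈ S)).card := h1.symm
    _ ≤ L.card := Finset.card_filter_le _ _

end Pool.Agent.N339.AO
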